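import Mathlib

namespace Pool.Agent.H.MP_3ab43d_mp

open Filter Topology Set Finset

def sol {K : Type} [CommRing K] (w : ℕ → K) (x y : K) : ℕ → K
  | 0 => x
  | 1 => y
  | n + 2 => w (n + 1) * sol w x y (n + 1) - sol w x y n

lemma uniq {K : Type} [CommRing K] (w f g : ℕ → K) (M : ℕ)
    (hf : ∀ n, n + 2 ≤ M → f (n + 2) = w (n + 1) * f (n + 1) - f n)
    (hg : ∀ n, n + 2 ≤ M → g (n + 2) = w (n + 1) * g (n + 1) - g n)
    (h0 : f 0 = g 0) (h1 : f 1 = g 1) (n : ℕ) (hn : n ≤ M) : f n = g n := by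
  induction n using Nat.twoStepInduction with
  | zero => exact h0
  | one => exact h1
  | more n a b => rw [hf n hn, hg n hn, a (by omega), b (by omega)]

noncomputable def th (U : ℤ → ℝ) (E : ℝ) : ℕ → ℝ := sol (fun n => E - U n) 0 1

lemma th_zero (U : ℤ → ℝ) (E : ℝ) : th U E 0 = 0 := rfl
lemma th_one (U : ℤ → ℝ) (E : ℝ) : th U E 1 = 1 := rfl
lemma th_add (U : ℤ → ℝ) (E : ℝ) (n : ℕ) :
    th U E (n + 2) = (E - U (n + 1 : ℕ)) * th U E (n + 1) - th U E n := rfl

lemma th_congr {U W : ℤ → ℝ} {M : ℕ} (h : ∀ n : ℤ, ¬ (M : ℤ) ∣ n → U n = W n) (E : ℝ) (n : ℕ)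
    (hn : n ≤ M) : th U E n = th W E n :=
  uniq (fun n => E - W n) (th U E) (th W E) M (fun n hn => by
    rw [th_add, h _ fun hd => absurd (Int.le_of_dvd (by positivity) hd) (by omega)])
    (fun n _ => th_add W E n) rfl rfl n hn

lemma th_cont (U : ℤ → ℝ) (n : ℕ) : Continuous fun E => th U E n := by
  induction n using Nat.twoStepInduction with
  | zero => exact continuous_const
  | one => exact continuous_const
  | more n a b => simp only [th_add]; fun_prop

noncomputable def ps (l : ℝ) : ℕ → ℝ := sol (fun _ => l + l⁻¹) 0 1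

lemma ps_succ {l : ℝ} (h : 0 < l) (j : ℕ) : ps l (j + 1) = ps l j * l⁻¹ + l ^ j := by
  induction j with
  | zero => simp [ps, sol]
  | succ j ih =>
    show (l + l⁻¹) * ps l (j + 1) - ps l j = _
    rw [ih]
    field_simp
    ring

lemma ps_nn {l : ℝ} (h : 0 < l) (j : ℕ) : 0 ≤ ps l j := by
  induction j with
  | zero => exact le_rfl
  | succ j ih => rw [ps_succ h]; positivity

lemma ps_low {l : ℝ} (h : 0 < l) (j : ℕ) : 1 ≤ l ^ j * ps l (j + 1) := by
  induction j with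
  | zero => simp [ps, sol]
  | succ j ih =>
    have : l ^ (j + 1) * ps l (j + 1 + 1) = l ^ j * ps l (j + 1) + l ^ (j + 1) * l ^ (j + 1) := by
      rw [ps_succ h (j + 1)]; field_simp; ring
    rw [this]
    exact le_add_of_le_of_nonneg ih (by positivity)

lemma ps_one {l : ℝ} (h : 0 < l) (h1 : l < 1) (j : ℕ) : 1 ≤ ps l (j + 1) :=
  (ps_low h j).trans (mul_le_of_le_one_left (ps_nn h _) (pow_le_one₀ h.le h1.le))

noncomputable def fill (W : ℤ → ℝ) (p : ℕ) (l : ℝ) (n : ℤ) : ℝ :=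
  if (p : ℤ) ∣ n then -(2 * th W 0 (p - 1) + (l + l⁻¹)) / th W 0 p else W n

structure Inv (p : ℕ) (U : ℤ → ℝ) (l : ℝ) : Prop where
  l0 : 0 < l
  l1 : l < 1
  p0 : 0 < p
  even : ∀ n, U (-n) = U n
  per : Function.Periodic U p
  pos : ∀ n, 1 ≤ n → n ≤ p → 0 < th U 0 n
  one : 1 ≤ th U 0 p
  val : U 0 * th U 0 p = -(2 * th U 0 (p - 1) + (l + l⁻¹))

variable {p : ℕ} {U : ℤ → ℝ} {l : ℝ}

lemma Inv.refl (h : Inv p U l) (E : ℝ) (n : ℕ) (hn : n + 2 ≤ p) :
    th U E (p - (n + 2)) = (E - U (n + 1 : ℕ)) * th U E (p - (n + 1)) - th U E (p - n) := by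
  obtain ⟨r, rfl⟩ := Nat.exists_eq_add_of_le' hn
  rw [show r + (n + 2) - n = r + 2 by omega, show r + (n + 2) - (n + 1) = r + 1 by omega,
    Nat.add_sub_cancel, th_add, ← h.even (n + 1 : ℕ), ← h.per (-(n + 1 : ℕ))]
  rw [show (-((n + 1 : ℕ) : ℤ) + (r + (n + 2) : ℕ)) = (r + 1 : ℕ) by push_cast; ring]
  ring

lemma Inv.shift (h : Inv p U l) (j n : ℕ) : U (j * p + n : ℕ) = U n := by
  rw [← h.per.nat_mul j n]
  congr 1
  push_cast; ring

lemma Inv.cell (h : Inv p U l) (j : ℕ) : ∀ m ≤ p,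
    th U 0 (j * p + m) = ps l j * th U 0 (p - m) + ps l (j + 1) * th U 0 m := by
  have key : ∀ j, th U 0 (j * p) = ps l j * th U 0 p →
      th U 0 (j * p + 1) = ps l j * th U 0 (p - 1) + ps l (j + 1) → ∀ m ≤ p,
      th U 0 (j * p + m) = ps l j * th U 0 (p - m) + ps l (j + 1) * th U 0 m := fun j a b =>
    uniq (fun n => 0 - U n) _ _ p (fun n _ => by
      rw [← add_assoc, th_add, add_assoc, h.shift]) (fun n hn => by
      rw [h.refl 0 n hn, th_add]; ring) (by simpa [th_zero] using a) (by simpa [th_one] using b)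
  induction j with
  | zero => exact key 0 (by simp [th_zero, ps, sol]) (by simp [th_one, ps, sol])
  | succ j ih =>
    obtain ⟨q, rfl⟩ : ∃ q, p = q + 1 := ⟨p - 1, by have := h.p0; omega⟩
    have a : th U 0 ((j + 1) * (q + 1)) = ps l (j + 1) * th U 0 (q + 1) := by
      simpa [th_zero, add_mul] using ih (q + 1) le_rfl
    refine key _ a ?_
    have b := ih q (by omega)
    have c := th_add U 0 (j * (q + 1) + q)
    have d := h.val
    have e := h.shift (j + 1) 0
    rw [show j * (q + 1) + q + 2 = (j + 1) * (q + 1) + 1 by ring,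
      show j * (q + 1) + q + 1 = (j + 1) * (q + 1) by ring] at c
    simp only [add_zero, Nat.add_sub_cancel, Nat.add_sub_cancel_left, th_one, CharP.cast_eq_zero]
      at b d e ⊢
    rw [c, e, a, b, show ps l (j + 1 + 1) = (l + l⁻¹) * ps l (j + 1) - ps l j from rfl]
    linear_combination (-ps l (j + 1)) * d

lemma Inv.mul (h : Inv p U l) (j : ℕ) : th U 0 (j * p) = ps l j * th U 0 p := by
  simpa [th_zero] using h.cell j 0 (Nat.zero_le _)

lemma Inv.nn (h : Inv p U l) (n : ℕ) (hn : n ≤ p) : 0 ≤ th U 0 n := by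
  rcases Nat.eq_zero_or_pos n with rfl | h0
  exacts [le_rfl, (h.pos n h0 hn).le]

lemma Inv.posall (h : Inv p U l) (n : ℕ) (hn : 1 ≤ n) : 0 < th U 0 n := by
  obtain ⟨r, rfl⟩ := Nat.exists_eq_add_of_le' hn
  have := h.cell (r / p) (r % p + 1) (Nat.mod_lt r h.p0)
  rw [← add_assoc, Nat.div_add_mod'] at this
  rw [this]
  exact add_pos_of_nonneg_of_pos (mul_nonneg (ps_nn h.l0 _) (h.nn _ (Nat.sub_le _ _)))
    (mul_pos (zero_lt_one.trans_le (ps_one h.l0 h.l1 _))
      (h.pos _ (by omega) (Nat.mod_lt r h.p0)))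

lemma fill_off (W : ℤ → ℝ) (p : ℕ) (l : ℝ) (n : ℤ) (h : ¬ (p : ℤ) ∣ n) : fill W p l n = W n :=
  if_neg h

lemma Inv.next (h : Inv p U l) (N : ℕ) {l' : ℝ} (a0 : 0 < l') (a1 : l' < 1) :
    Inv ((N + 1) * p) (fill U ((N + 1) * p) l') l' := by
  have e := th_congr (fill_off U ((N + 1) * p) l') 0
  have hp : 0 < (N + 1) * p := Nat.mul_pos N.succ_pos h.p0
  refine ⟨a0, a1, hp, fun n => ?_, fun n => ?_, fun n h1 h2 => ?_, ?_, ?_⟩
  · simp only [fill, dvd_neg, h.even]
  · simp only [fill, dvd_add_self_right]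
    rw [Nat.cast_mul, h.per.nat_mul (N + 1) n]
  · rw [e n h2]; exact h.posall n h1
  · rw [e _ le_rfl, h.mul]
    exact one_le_mul_of_one_le_of_one_le (ps_one h.l0 h.l1 N) h.one
  · rw [e _ le_rfl, e _ (Nat.sub_le _ _), fill, if_pos (dvd_zero _),
      div_mul_cancel₀ _ (h.posall _ hp).ne']

lemma Inv.l1b (h : Inv p U l) (j : ℕ) : ∑ n ∈ range (j * p + 1), th U 0 n ≤
    (∑ n ∈ range (p + 1), th U 0 n) * ((1 + l) / (1 - l)) * ps l j := by
  induction j with
  | zero => simp [th_zero, ps, sol]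
  | succ j ih =>
    have l0 := h.l0
    have l1 : 0 < 1 - l := sub_pos.2 h.l1
    obtain ⟨A, hA⟩ : ∃ A, A = ∑ n ∈ range (p + 1), th U 0 n := ⟨_, rfl⟩
    have a1 : ∑ m ∈ range p, th U 0 (m + 1) = A := by rw [hA, sum_range_succ', th_zero, add_zero]
    have a2 : ∑ m ∈ range p, th U 0 (p - (m + 1)) ≤ A := by
      rw [hA, sum_range_succ, ← sum_range_reflect (th U 0) p]
      simp only [Nat.sub_sub, add_comm 1]
      exact le_add_of_nonneg_right (h.nn p le_rfl)
    have A0 : 0 ≤ A := hA ▸ sum_nonneg fun n hn => h.nn n (by simpa [Nat.lt_succ_iff] using hn)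
    have a3 : ∀ m ∈ range p, th U 0 (j * p + 1 + m) =
        ps l j * th U 0 (p - (m + 1)) + ps l (j + 1) * th U 0 (m + 1) := fun m hm => by
      rw [show j * p + 1 + m = j * p + (m + 1) by ring, h.cell j (m + 1) (mem_range.1 hm)]
    rw [show (j + 1) * p + 1 = j * p + 1 + p by ring, sum_range_add, sum_congr rfl a3,
      sum_add_distrib, ← mul_sum, ← mul_sum, a1, ← hA]
    rw [← hA] at ih
    have b1 : ps l j ≤ l * ps l (j + 1) := by
      rw [ps_succ l0, mul_add, mul_left_comm, mul_inv_cancel₀ l0.ne', mul_one]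
      exact le_add_of_nonneg_right (by positivity)
    have b2 := mul_le_mul_of_nonneg_left a2 (ps_nn l0 j)
    have b3 := mul_le_mul_of_nonneg_left b1 (by positivity : 0 ≤ A * ((1 + l) / (1 - l)) + A)
    have b4 : (A * ((1 + l) / (1 - l)) + A) * (l * ps l (j + 1)) + ps l (j + 1) * A =
        A * ((1 + l) / (1 - l)) * ps l (j + 1) := by field_simp; ring
    linarith

lemma Inv.small (h : Inv p U l) (N : ℕ) : 1 / th U 0 ((N + 1) * p) ≤ l ^ N / th U 0 p := by
  have := h.one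
  have a := ps_one h.l0 h.l1 N
  rw [h.mul, div_le_div_iff₀ (by positivity) (by positivity), ← mul_assoc]
  exact mul_le_mul_of_nonneg_right (ps_low h.l0 N) (by linarith)

lemma Inv.delta (h : Inv p U l) (N : ℕ) {l' : ℝ} (a0 : 0 < l') :
    |fill U ((N + 1) * p) l' 0 - U 0| ≤
      (l⁻¹ - l) / th U 0 p + 2 * l ^ N + (l' + l'⁻¹) / th U 0 ((N + 1) * p) := by
  have t1 := h.one
  have l0 := h.l0
  have a := ps_one h.l0 h.l1 N
  have b := h.cell N (p - 1) (Nat.sub_le _ _)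
  have p0 := h.p0
  rw [show N * p + (p - 1) = (N + 1) * p - 1 by rw [add_mul]; omega,
    show p - (p - 1) = 1 by omega, th_one] at b
  have c : ps l N = l * ps l (N + 1) - l * l ^ N := by rw [ps_succ l0]; field_simp; ring
  have e : fill U ((N + 1) * p) l' 0 - U 0 = (l⁻¹ - l) / th U 0 p +
      2 * (l * l ^ N / (ps l (N + 1) * th U 0 p)) - (l' + l'⁻¹) / th U 0 ((N + 1) * p) := by
    rw [fill, if_pos (dvd_zero _), b, h.mul, eq_div_of_mul_eq (by positivity) h.val, c]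
    field_simp
    ring
  have f1 : 0 ≤ (l⁻¹ - l) / th U 0 p :=
    div_nonneg (sub_nonneg.2 (h.l1.le.trans (one_le_inv₀ l0 |>.2 h.l1.le))) (by positivity)
  have f2 : 0 ≤ (l' + l'⁻¹) / th U 0 ((N + 1) * p) := by rw [h.mul]; positivity
  have f3 : l * l ^ N / (ps l (N + 1) * th U 0 p) ≤ l ^ N :=
    (div_le_self (by positivity) (one_le_mul_of_one_le_of_one_le a t1)).trans
      (mul_le_of_le_one_left (by positivity) h.l1.le)
  have f4 : 0 ≤ l * l ^ N / (ps l (N + 1) * th U 0 p) := by positivity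
  rw [e, abs_le]
  constructor <;> linarith

lemma extend (V : ℤ → ℝ) (hV : ∀ n, V (-n) = V n) (c σ : ℝ) (hσ : |σ| = 1) (f : ℕ → ℝ)
    (hf : ∀ n, f (n + 2) = (c - V (n + 1 : ℕ)) * f (n + 1) - f n) (h0 : σ * f 0 = f 0)
    (h1 : f 1 + σ * f 1 + V 0 * f 0 = c * f 0) :
    ∃ φ : ℤ → ℝ, (∀ n : ℕ, φ n = f n) ∧ (∀ n, |φ n| = |f n.natAbs|) ∧
      ∀ n, φ (n + 1) + φ (n - 1) + V n * φ n = c * φ n := by
  let φ : ℤ → ℝ := fun n => if 0 ≤ n then f n.natAbs else σ * f n.natAbs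
  have a : ∀ n : ℕ, φ n = f n := fun n => by simp [φ]
  have b : ∀ n : ℕ, φ (-n) = σ * f n := fun n => by
    rcases Nat.eq_zero_or_pos n with rfl | h
    · simp [φ, h0]
    · simp [φ, h.ne']
  refine ⟨φ, a, fun n => ?_, fun n => ?_⟩
  · simp only [φ]
    split_ifs <;> simp [abs_mul, hσ]
  · rcases lt_trichotomy n 0 with h | rfl | h
    · obtain ⟨m, rfl⟩ : ∃ m : ℕ, n = -(m + 1 : ℕ) := ⟨(-n - 1).toNat, by omega⟩
      rw [show (-((m + 1 : ℕ) : ℤ)) + 1 = -(m : ℕ) by omega,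
        show (-((m + 1 : ℕ) : ℤ)) - 1 = -(m + 2 : ℕ) by omega, b, b, b, hV, hf]
      ring
    · have := a 0
      have e1 := a 1
      have e2 := b 1
      simp only [Nat.cast_zero, Nat.cast_one, zero_add, zero_sub] at *
      rw [this, e1, e2, h1]
    · obtain ⟨m, rfl⟩ : ∃ m : ℕ, n = (m + 1 : ℕ) := ⟨(n - 1).toNat, by omega⟩
      rw [show ((m + 1 : ℕ) : ℤ) + 1 = (m + 2 : ℕ) by omega,
        show ((m + 1 : ℕ) : ℤ) - 1 = (m : ℕ) by omega, a, a, a, hf]
      ring

structure Hier (l : ℕ → ℝ) (N p : ℕ → ℕ) (U : ℕ → ℤ → ℝ) : Prop where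
  l0 : ∀ k, 0 < l k
  l1 : ∀ k, l k < 1
  N1 : ∀ k, 1 ≤ N k
  p0 : p 0 = 1
  pS : ∀ k, p (k + 1) = (N k + 1) * p k
  U0 : U 0 = fun _ => -(l 0 + (l 0)⁻¹)
  US : ∀ k, U (k + 1) = fill (U k) (p (k + 1)) (l (k + 1))

lemma inv0 {l : ℝ} (h0 : 0 < l) (h1 : l < 1) : Inv 1 (fun _ => -(l + l⁻¹)) l :=
  ⟨h0, h1, one_pos, fun _ => rfl, fun _ => rfl, fun n a b => by
    rw [le_antisymm b a, th_one]; exact one_pos, le_rfl, by simp [th_one, th_zero]⟩

lemma Hier.inv {l : ℕ → ℝ} {N p : ℕ → ℕ} {U : ℕ → ℤ → ℝ} (h : Hier l N p U) (k : ℕ) :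
    Inv (p k) (U k) (l k) := by
  induction k with
  | zero => rw [h.p0, h.U0]; exact inv0 (h.l0 0) (h.l1 0)
  | succ k ih => rw [h.US, h.pS]; exact ih.next _ (h.l0 _) (h.l1 _)

lemma Hier.lt {l : ℕ → ℝ} {N p : ℕ → ℕ} {U : ℕ → ℤ → ℝ} (h : Hier l N p U) (k : ℕ) : k < p k := by
  induction k with
  | zero => rw [h.p0]; exact one_pos
  | succ k ih => rw [h.pS]; nlinarith [h.N1 k]

lemma Hier.limit {l : ℕ → ℝ} {N p : ℕ → ℕ} {U : ℕ → ℤ → ℝ} (h : Hier l N p U) (d : ℕ → ℝ)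
    (hd : Summable d) (h1 : ∀ k, |U (k + 1) 0 - U k 0| ≤ d k)
    (h2 : Tendsto (fun k => (l k + (l k)⁻¹) / th (U k) 0 (p k)) atTop (𝓝 0)) (B : ℝ)
    (h3 : ∀ k, ∏ j ∈ range k, (1 + l j) / (1 - l j) ≤ B) :
    ∃ V : ℤ → ℝ, (∀ k n, |V n - U k n| ≤ ∑' m, d (m + k)) ∧
      (∀ k n, ¬ (p (k + 1) : ℤ) ∣ n → V n = U k n) ∧ (∀ n, V (-n) = V n) ∧
      ∃ u : ℤ → ℝ, u 0 = 1 ∧ Summable (fun n => |u n|) ∧
        ∀ n, u (n + 1) + u (n - 1) + V n * u n = 0 := by
  have s1 : ∀ n k, dist (U k n) (U (k + 1) n) ≤ d k := by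
    intro n k
    rw [dist_comm, Real.dist_eq]
    by_cases c : (p (k + 1) : ℤ) ∣ n
    · have c' : (p k : ℤ) ∣ n := Dvd.dvd.trans ⟨(N k + 1 : ℕ), by rw [h.pS]; push_cast; ring⟩ c
      obtain ⟨a, ha⟩ := c
      obtain ⟨b, hb⟩ := c'
      have e1 := (h.inv (k + 1)).per.int_mul_eq a
      have e2 := (h.inv k).per.int_mul_eq b
      simp only [Int.cast_id] at e1 e2
      rw [mul_comm, ← ha] at e1
      rw [mul_comm, ← hb] at e2
      rw [e1, e2]
      exact h1 k
    · rw [h.US, fill_off _ _ _ _ c, sub_self, abs_zero]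
      exact (abs_nonneg _).trans (h1 k)
  choose V hV using fun n => cauchySeq_tendsto_of_complete
    (cauchySeq_of_dist_le_of_summable d (s1 n) hd)
  have s2 : ∀ k n, ¬ (p (k + 1) : ℤ) ∣ n → V n = U k n := by
    intro k n c
    have : ∀ j, ¬ (p (k + j + 1) : ℤ) ∣ n ∧ U (k + j) n = U k n := by
      intro j
      induction j with
      | zero => exact ⟨c, rfl⟩
      | succ j ih =>
        refine ⟨fun x => ih.1 (Dvd.dvd.trans ⟨(N (k + j + 1) + 1 : ℕ), ?_⟩ x), ?_⟩
        · rw [← add_assoc, h.pS]; push_cast; ring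
        · rw [← add_assoc, h.US, fill_off _ _ _ _ ih.1, ih.2]
    refine tendsto_nhds_unique (hV n) (tendsto_const_nhds.congr' ?_)
    filter_upwards [eventually_ge_atTop k] with j hj
    obtain ⟨i, rfl⟩ := Nat.exists_eq_add_of_le hj
    exact (this i).2.symm
  have s3 : ∀ n, V (-n) = V n := fun n =>
    tendsto_nhds_unique (hV (-n)) ((hV n).congr fun k => ((h.inv k).even n).symm)
  refine ⟨V, fun k n => ?_, s2, s3, ?_⟩
  · have := dist_le_tsum_of_dist_le_of_tendsto d (s1 n) hd (hV n) k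
    rwa [dist_comm, Real.dist_eq, tsum_congr fun m => by rw [add_comm]] at this
  let f : ℝ → ℕ → ℝ := fun y => sol (fun n => 0 - V n) 1 y
  have cf : ∀ n, Continuous fun y => f y n := fun n => by
    induction n using Nat.twoStepInduction with
    | zero => exact continuous_const
    | one => exact continuous_id
    | more n a b => exact (continuous_const.mul b).sub a
  obtain ⟨u, u1, u2, u3⟩ := extend V s3 0 1 abs_one (f (-V 0 / 2)) (fun _ => rfl) (one_mul _)
    (by simp [f, sol])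
  have L : ∀ k, ∑ n ∈ range (p k + 1), th (U k) 0 n ≤
      (∏ j ∈ range k, (1 + l j) / (1 - l j)) * th (U k) 0 (p k) := by
    intro k
    induction k with
    | zero => simp [h.p0, sum_range_succ, th_zero]
    | succ k ih =>
      have e := th_congr (fill_off (U k) (p (k + 1)) (l (k + 1))) 0
      rw [h.US, e _ le_rfl, sum_congr rfl fun n hn => e n (Nat.lt_succ_iff.1 (mem_range.1 hn)),
        h.pS, (h.inv k).mul, prod_range_succ]
      refine ((h.inv k).l1b _).trans ?_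
      have := h.l0 k
      have := sub_pos.2 (h.l1 k)
      have := ps_nn (h.l0 k) (N k + 1)
      calc _ ≤ (∏ j ∈ range k, (1 + l j) / (1 - l j)) * th (U k) 0 (p k) *
            ((1 + l k) / (1 - l k)) * ps (l k) (N k + 1) := by gcongr
        _ = _ := by ring
  have y : Tendsto (fun k => th (U k) 0 (p k - 1) / th (U k) 0 (p k)) atTop (𝓝 (-V 0 / 2)) := by
    have := ((hV 0).neg.sub h2).div_const 2
    rw [sub_zero] at this
    refine this.congr fun k => ?_
    have := (h.inv k).one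
    rw [eq_div_of_mul_eq (by positivity) (h.inv k).val]
    field_simp
    ring
  have bd : ∀ M, ∑ n ∈ range M, |f (-V 0 / 2) n| ≤ B := by
    intro M
    refine le_of_tendsto (tendsto_finset_sum (range M) fun n _ =>
      (((cf n).tendsto _).comp y).abs) ?_
    filter_upwards [eventually_ge_atTop M] with k hk
    have i := h.inv k
    have t1 := i.one
    have e : ∀ n ≤ p k, f (th (U k) 0 (p k - 1) / th (U k) 0 (p k)) n =
        th (U k) 0 (p k - n) / th (U k) 0 (p k) :=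
      uniq (fun n => 0 - V n) _ _ (p k) (fun _ _ => rfl) (fun n hn => by
        rw [i.refl 0 n hn, s2 k _ fun hd => absurd (Int.le_of_dvd (by positivity) hd) (by
          rw [h.pS]; push_cast; nlinarith [h.N1 k])]
        ring) (by rw [Nat.sub_zero, div_self (by positivity)]; rfl) rfl
    have lt := h.lt k
    simp only [Function.comp]
    calc _ ≤ ∑ n ∈ range (p k + 1), |f (th (U k) 0 (p k - 1) / th (U k) 0 (p k)) n| :=
          sum_le_sum_of_subset_of_nonneg (range_subset_range.2 (by omega))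
            fun _ _ _ => abs_nonneg _
      _ = (∑ n ∈ range (p k + 1), th (U k) 0 n) / th (U k) 0 (p k) := by
          rw [← sum_range_reflect (th (U k) 0), sum_div]
          refine sum_congr rfl fun n hn => ?_
          rw [e n (Nat.lt_succ_iff.1 (mem_range.1 hn)), Nat.add_sub_cancel,
            abs_of_nonneg (div_nonneg (i.nn _ (Nat.sub_le _ _)) (by positivity))]
      _ ≤ B := by rw [div_le_iff₀ (by positivity)]; exact (L k).trans (by gcongr; exact h3 k)
  have sm := summable_of_sum_range_le (fun n => abs_nonneg _) bd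
  refine ⟨u, u1 0, Summable.of_nat_of_neg ?_ ?_, fun n => by simpa using u3 n⟩ <;>
    simpa [u2] using sm

end Pool.Agent.H.MP_3ab43d_mp
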