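import Mathlib
import Pool.Agent.H.MP_3ab43d_mp.Sol

namespace Pool.Agent.H.MP_3ab43d_mp

open Filter Topology Set Finset MeasureTheory Matrix

lemma vol_bad (U : ℤ → ℝ) (d : ℕ) (r : ℝ) (hr : 0 < r) (hr1 : r ≤ 1) :
    volume {E | |th U E (d + 1)| < r} ≤ ENNReal.ofReal (2 * r * (d + 1)) := by
  let J : Matrix (Fin d) (Fin d) ℝ := fun i j => (if j = i then U (i + 1 : ℕ) else 0) +
    (if (j : ℕ) = i + 1 then 1 else 0) + if (i : ℕ) = j + 1 then 1 else 0
  have hJ : J.IsHermitian := by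
    ext i j
    simp only [conjTranspose_apply, J, star_trivial]
    by_cases h : i = j
    · simp [h]
    · simp [h, Ne.symm h, add_comm]
  have hT := isSymmetric_toEuclideanLin_iff.2 hJ
  have hn : Module.finrank ℝ (EuclideanSpace ℝ (Fin d)) = d := by simp
  refine (measure_mono (t := ⋃ i, Ioo (hT.eigenvalues hn i - r) (hT.eigenvalues hn i + r))
    fun E hE => ?_).trans ((measure_iUnion_fintype_le _ _).trans ?_)
  · by_contra hc
    simp only [mem_iUnion, Set.mem_Ioo, not_exists] at hc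
    have far : ∀ i, r ^ 2 ≤ (hT.eigenvalues hn i - E) ^ 2 := fun i => by
      rw [← sq_abs (_ - E)]
      refine pow_le_pow_left₀ hr.le (not_lt.1 fun h => hc i ?_) 2
      constructor <;> linarith [(abs_lt.1 h).1, (abs_lt.1 h).2]
    let v : EuclideanSpace ℝ (Fin d) := WithLp.toLp 2 fun i => th U E (i + 1)
    have a1 : r ^ 2 * ‖v‖ ^ 2 ≤ ‖toEuclideanLin J v - E • v‖ ^ 2 := by
      rw [← (hT.eigenvectorBasis hn).repr.norm_map, ← (hT.eigenvectorBasis hn).repr.norm_map
        (_ - _), EuclideanSpace.real_norm_sq_eq, EuclideanSpace.real_norm_sq_eq, mul_sum]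
      refine sum_le_sum fun i _ => ?_
      rw [map_sub, map_smul, PiLp.sub_apply, PiLp.smul_apply, hT.eigenvectorBasis_apply_self_apply,
        smul_eq_mul, RCLike.ofReal_real_eq_id, id, ← sub_mul, mul_pow]
      exact mul_le_mul_of_nonneg_right (far i) (sq_nonneg _)
    have a2 : ∀ i : Fin d, (toEuclideanLin J v - E • v) i =
        if (i : ℕ) + 1 = d then -th U E (d + 1) else 0 := by
      intro i
      have b1 : ∑ j : Fin d, (if (j : ℕ) = i + 1 then 1 else 0) * th U E (j + 1) =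
          if (i : ℕ) + 1 = d then 0 else th U E (i + 2) := by
        rw [Fin.sum_univ_eq_sum_range (fun j => (if j = i + 1 then 1 else 0) * th U E (j + 1))]
        have := i.2
        simp only [ite_mul, one_mul, zero_mul, sum_ite_eq', Finset.mem_range]
        split_ifs <;> first | rfl | omega
      have b2 : ∑ j : Fin d, (if (i : ℕ) = j + 1 then 1 else 0) * th U E (j + 1) = th U E i := by
        rw [Fin.sum_univ_eq_sum_range (fun j => (if (i : ℕ) = j + 1 then 1 else 0) * th U E (j + 1))]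
        obtain ⟨_ | i, hi⟩ := i
        · simp [th_zero]
        · simp [show i < d by omega]
      rw [PiLp.sub_apply, PiLp.smul_apply, ofLp_toEuclideanLin_apply]
      simp only [mulVec, dotProduct, J, add_mul, sum_add_distrib, v, b1, b2, smul_eq_mul]
      simp only [ite_mul, zero_mul, sum_ite_eq', Finset.mem_univ, if_true]
      split_ifs with h
      · rw [show d + 1 = i + 2 by omega, th_add]; ring
      · rw [th_add]; ring
    rw [EuclideanSpace.real_norm_sq_eq, EuclideanSpace.real_norm_sq_eq] at a1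
    have hE' : th U E (d + 1) ^ 2 < r ^ 2 := by
      rw [← sq_abs]; exact pow_lt_pow_left₀ hE (abs_nonneg _) two_ne_zero
    cases d with
    | zero => rw [zero_add, th_one] at hE'; nlinarith
    | succ d =>
      have a3 : ∑ i, (toEuclideanLin J v - E • v) i ^ 2 = th U E (d + 1 + 1) ^ 2 := by
        rw [sum_eq_single (Fin.last d)]
        · rw [a2]; simp
        · intro i _ hi
          rw [a2, if_neg fun h => hi (Fin.ext (by simpa using h))]
          simp
        · simp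
      have a4 : 1 ≤ ∑ i, v i ^ 2 := by
        have := single_le_sum (f := fun i => v i ^ 2) (fun i _ => sq_nonneg _) (Finset.mem_univ 0)
        simpa [v, th_one] using this
      nlinarith [sq_nonneg r]
  · simp only [Real.volume_Ioo, sum_const, card_univ, Fintype.card_fin, add_sub_sub_cancel]
    rw [nsmul_eq_mul, ← ENNReal.ofReal_natCast, ← ENNReal.ofReal_mul (Nat.cast_nonneg _)]
    exact ENNReal.ofReal_le_ofReal (by nlinarith)

noncomputable def fl (U : ℤ → ℝ) (E : ℝ) (m : ℂ) : ℕ → ℂ := sol (fun n => ((E - U n : ℝ) : ℂ)) 1 m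

lemma fl_add (U : ℤ → ℝ) (E : ℝ) (m : ℂ) (n : ℕ) :
    fl U E m (n + 2) = ((E - U (n + 1 : ℕ) : ℝ) : ℂ) * fl U E m (n + 1) - fl U E m n := rfl

lemma fl_im (U : ℤ → ℝ) (E : ℝ) (m : ℂ) (n : ℕ) : (fl U E m n).im = m.im * th U E n :=
  uniq (fun n => E - U n) (fun n => (fl U E m n).im) (fun n => m.im * th U E n) n
    (fun n _ => by rw [fl_add, Complex.sub_im, Complex.im_ofReal_mul])
    (fun n _ => by rw [th_add]; ring) (by simp [fl, sol, th_zero]) (by simp [fl, sol, th_one]) n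
    le_rfl

def Fl (p : ℕ) (U : ℤ → ℝ) (E e : ℝ) : Prop :=
  ∃ m μ : ℂ, 0 < m.im ∧ 1 / 2 + 4 * e ≤ m.im ^ 2 ∧ ‖μ‖ = 1 ∧ fl U E m p = μ ∧
    fl U E m (p + 1) = μ * m ∧ ∀ n ≤ p, ‖fl U E m n‖ ≤ 2 - 24 * e

variable {p : ℕ} {U : ℤ → ℝ} {l E e : ℝ}

lemma fl_per (h : Inv p U l) {m μ : ℂ} (h1 : fl U E m p = μ) (h2 : fl U E m (p + 1) = μ * m)
    (j n : ℕ) : fl U E m (j * p + n) = μ ^ j * fl U E m n := by
  induction j with
  | zero => simp
  | succ j ih =>
    have : ∀ n, fl U E m (1 * p + n) = μ * fl U E m n := fun n =>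
      uniq (fun n => ((E - U n : ℝ) : ℂ)) (fun n => fl U E m (1 * p + n))
        (fun n => μ * fl U E m n) n
        (fun n _ => by rw [← add_assoc, fl_add, add_assoc, h.shift])
        (fun n _ => by rw [fl_add]; ring) (by simpa [fl, sol] using h1)
        (by rw [one_mul, h2]; rfl) n le_rfl
    rw [show (j + 1) * p + n = 1 * p + (j * p + n) by ring, this, ih]
    ring

lemma fl_bd (h : Inv p U l) {m μ : ℂ} (h0 : ‖μ‖ = 1) (h1 : fl U E m p = μ)
    (h2 : fl U E m (p + 1) = μ * m) {C : ℝ} (h3 : ∀ n ≤ p, ‖fl U E m n‖ ≤ C) (n : ℕ) :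
    ‖fl U E m n‖ ≤ C := by
  rw [← Nat.div_add_mod' n p, fl_per h h1 h2, norm_mul, norm_pow, h0, one_pow, one_mul]
  exact h3 _ (Nat.mod_lt n h.p0).le

lemma Fl.bd (h : Inv p U l) (f : Fl p U E e) (he : 0 ≤ e) (n : ℕ) : |th U E n| ≤ 4 := by
  obtain ⟨m, μ, y0, y1, h0, h1, h2, h3⟩ := f
  have := (Complex.abs_im_le_norm _).trans (fl_bd h h0 h1 h2 h3 n)
  rw [fl_im, abs_mul, abs_of_pos y0] at this
  have : 1 / 2 ≤ m.im := by nlinarith
  nlinarith [abs_nonneg (th U E n)]

lemma Fl.two (h : Inv p U l) (f : Fl p U E e) {r : ℝ} (N t : ℕ) (a : |th U E (N * p)| < r)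
    (b : |th U E ((N + t) * p)| < r) : |th U E (t * p)| < 2 * r := by
  obtain ⟨m, μ, y0, -, h0, h1, h2, -⟩ := f
  have k : ∀ j, (μ ^ j).im = m.im * th U E (j * p) := fun j => by
    have := fl_per h h1 h2 j 0
    rw [add_zero, show fl U E m 0 = 1 from rfl, mul_one] at this
    rw [← this, fl_im]
  have n : ∀ j, |(μ ^ j).re| ≤ 1 := fun j =>
    (Complex.abs_re_le_norm _).trans (by rw [norm_pow, h0, one_pow])
  have s : (μ ^ N).re ^ 2 + (μ ^ N).im ^ 2 = 1 := by
    rw [sq, sq, ← Complex.normSq_apply, Complex.normSq_eq_norm_sq, norm_pow, h0]; simp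
  have e1 : (μ ^ t).im = (μ ^ (N + t)).im * (μ ^ N).re - (μ ^ (N + t)).re * (μ ^ N).im := by
    rw [pow_add, Complex.mul_im, Complex.mul_re]
    linear_combination (-(μ ^ t).im) * s
  have e2 : |(μ ^ t).im| ≤ |(μ ^ (N + t)).im| + |(μ ^ N).im| := by
    rw [e1]
    refine (abs_sub _ _).trans ?_
    rw [abs_mul, abs_mul]
    nlinarith [n N, n (N + t), abs_nonneg (μ ^ (N + t)).im, abs_nonneg (μ ^ N).im]
  rw [k, k, k, abs_mul, abs_mul, abs_mul, abs_of_pos y0] at e2
  nlinarith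

lemma Fl.next (h : Inv p U l) (f : Fl p U E e) (he : 0 < e) (he1 : e ≤ 1 / 32) (N : ℕ) (l' r : ℝ)
    (hr : 0 < r) (hr1 : r ≤ 1) (hc : r ≤ |th U E ((N + 1) * p)|)
    (hδ : |fill U ((N + 1) * p) l' 0 - U 0| ≤ e * r) :
    Fl ((N + 1) * p) (fill U ((N + 1) * p) l') E (e / 2) := by
  obtain ⟨m, μ, y0, y1, h0, h1, h2, h3⟩ := id f
  obtain ⟨q, hq⟩ : ∃ q, (N + 1) * p = q + 1 :=
    ⟨(N + 1) * p - 1, by have := Nat.mul_pos (by omega : 0 < N + 1) h.p0; omega⟩
  have M0 := fl_per h h1 h2 (N + 1) 0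
  have M1 := fl_per h h1 h2 (N + 1) 1
  have U0 := h.shift (N + 1) 0
  have M2 : ‖μ ^ (N + 1)‖ = 1 := by rw [norm_pow, h0, one_pow]
  have U1 : fill U ((N + 1) * p) l' ((N + 1) * p : ℕ) = fill U ((N + 1) * p) l' 0 := by
    simp only [fill, dvd_refl, dvd_zero, if_true]
  have off := fill_off U ((N + 1) * p) l'
  rw [show fl U E m 0 = 1 from rfl, mul_one] at M0
  rw [show fl U E m 1 = m from rfl] at M1
  generalize μ ^ (N + 1) = M at *
  generalize fill U ((N + 1) * p) l' = U' at *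
  rw [hq] at hc M0 M1 U0 U1 off ⊢
  simp only [add_zero, CharP.cast_eq_zero] at M0 U0
  obtain ⟨δ, hd⟩ : ∃ δ, δ = U 0 - U' 0 := ⟨_, rfl⟩
  obtain ⟨c, hc'⟩ : ∃ c, c = th U E (q + 1) := ⟨_, rfl⟩
  rw [abs_sub_comm, ← hd] at hδ
  rw [← hc'] at hc
  have c0 : c ≠ 0 := abs_pos.1 (hr.trans_le hc)
  have s1 : M.im = m.im * c := by rw [← M0, fl_im, hc']
  have s2 : th U E (q + 1 + 1) = M.re + c * m.re := by
    have := fl_im U E m (q + 1 + 1)
    rw [M1, Complex.mul_im, s1] at this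
    exact mul_left_cancel₀ y0.ne' (by linarith)
  have s3 : M.re ^ 2 + M.im ^ 2 = 1 := by
    rw [sq, sq, ← Complex.normSq_apply, Complex.normSq_eq_norm_sq, M2]; simp
  have d1 : |δ| ≤ e := hδ.trans (mul_le_of_le_one_right he.le hr1)
  have d2 : |δ * M.re / c| ≤ e := by
    rw [abs_div, abs_mul, div_le_iff₀ (abs_pos.2 c0)]
    have : |M.re| ≤ 1 := (Complex.abs_re_le_norm _).trans M2.le
    nlinarith [abs_nonneg δ]
  have d3 : δ ^ 2 ≤ e := by rw [← sq_abs]; nlinarith [abs_nonneg δ]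
  obtain ⟨y, hy0, hy⟩ : ∃ y, 0 < y ∧ y ^ 2 = m.im ^ 2 - δ ^ 2 / 4 - δ * M.re / c :=
    ⟨√_, Real.sqrt_pos.2 (by linarith [(abs_le.1 d2).2]),
      Real.sq_sqrt (by linarith [(abs_le.1 d2).2])⟩
  have hy' : c * y ^ 2 = c * m.im ^ 2 - c * δ ^ 2 / 4 - δ * M.re := by rw [hy]; field_simp
  have y2 : 1 / 2 + 4 * (e / 2) ≤ y ^ 2 := by linarith [(abs_le.1 d2).2]
  have y3 : |y - m.im| ≤ 2 * e := by
    have a1 : 1 / 2 ≤ y := by nlinarith
    have a2 : 1 / 2 ≤ m.im := by nlinarith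
    have a3 : |y - m.im| * (y + m.im) ≤ 2 * e := by
      rw [← abs_of_pos (by linarith : 0 < y + m.im), ← abs_mul, abs_le]
      constructor <;> nlinarith [(abs_le.1 d2).1, (abs_le.1 d2).2, sq_nonneg δ]
    nlinarith [abs_nonneg (y - m.im)]
  let z : ℂ := ⟨δ / 2, y - m.im⟩
  have z1 : ‖z‖ ≤ 3 * e := (Complex.norm_le_abs_re_add_abs_im z).trans (by
    simp only [z, abs_div, abs_two]; linarith)
  have key : ∀ n ≤ q + 1, fl U' E (m + z) n = fl U E m n + z * th U E n :=
    uniq (fun n => ((E - U n : ℝ) : ℂ)) _ _ (q + 1) (fun n hn => by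
      rw [fl_add, off _ fun hd => absurd (Int.le_of_dvd (by positivity) hd) (by omega)])
      (fun n _ => by rw [fl_add, th_add]; push_cast; ring) (by simp [fl, sol, th_zero])
      (by simp [fl, sol, th_one])
  refine ⟨m + z, M + z * c, by simpa [z] using hy0, by simpa [z] using y2, ?_,
    by rw [key _ le_rfl, M0, hc'], ?_, fun n hn => ?_⟩
  · rw [← sq_eq_sq₀ (norm_nonneg _) zero_le_one, ← Complex.normSq_eq_norm_sq, Complex.normSq_apply]
    simp only [z, Complex.add_re, Complex.add_im, Complex.mul_re, Complex.mul_im, Complex.ofReal_re,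
      Complex.ofReal_im]
    rw [s1] at s3 ⊢
    linear_combination s3 + c * hy'
  · have a := fl_add U E m q
    have b := congrArg (fun x : ℝ => (x : ℂ)) (th_add U E q)
    rw [s2, U0, ← hc'] at b
    rw [M1, M0, U0] at a
    rw [fl_add, key _ le_rfl, key q q.le_succ, M0, ← hc', U1,
      show U' 0 = U 0 - δ by rw [hd]; ring]
    have e : (M + z * c) * (m + z) = δ * (M + z * c) + M * m + z * (M.re + c * m.re : ℝ) := by
      apply Complex.ext <;>
        simp only [z, Complex.add_re, Complex.add_im, Complex.mul_re, Complex.mul_im,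
          Complex.ofReal_re, Complex.ofReal_im, s1]
      · linear_combination (-1) * hy'
      · ring
    rw [e, a]
    push_cast at b ⊢
    linear_combination (-z) * b
  · rw [key n hn]
    refine (norm_add_le _ _).trans ?_
    rw [norm_mul, Complex.norm_real, Real.norm_eq_abs]
    have := mul_le_mul z1 (f.bd h he.le n) (abs_nonneg _) (by positivity)
    linarith [fl_bd h h0 h1 h2 h3 n]

lemma fl0 (a E : ℝ) (h : |E - a| ≤ 1) : Fl 1 (fun _ => a) E (1 / 32) := by
  have h1 : (E - a) ^ 2 ≤ 1 := by rw [← sq_abs]; nlinarith [abs_nonneg (E - a)]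
  obtain ⟨y, y0, hy⟩ : ∃ y, 0 < y ∧ y ^ 2 = 1 - (E - a) ^ 2 / 4 :=
    ⟨√_, Real.sqrt_pos.2 (by linarith), Real.sq_sqrt (by linarith)⟩
  have n : ‖(⟨(E - a) / 2, y⟩ : ℂ)‖ = 1 := by
    rw [← sq_eq_sq₀ (norm_nonneg _) zero_le_one, ← Complex.normSq_eq_norm_sq, Complex.normSq_apply]
    linear_combination hy
  refine ⟨⟨(E - a) / 2, y⟩, ⟨(E - a) / 2, y⟩, y0, by linarith, n, rfl, ?_, fun k hk => ?_⟩
  · apply Complex.ext <;> simp [fl, sol]
    · linear_combination hy
    · ring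
  · interval_cases k
    · simp [fl, sol]; norm_num
    · exact n.le.trans (by norm_num)

lemma pigeon (h : Inv p U l) (G : Set ℝ) (hG : MeasurableSet G) (h2 : volume G ≠ ⊤)
    (h3 : volume.real G ≤ 2) (f : ∀ E ∈ G, Fl p U E e) (m K : ℕ) (hm : 0 < m) (r : ℝ) (hr : 0 < r)
    (hr1 : 2 * r ≤ 1) : ∃ N ≥ K,
      volume.real (G ∩ {E | |th U E ((N + 1) * p)| < r}) ≤ 2 / m + 4 * r * m ^ 2 * p := by
  let X : Set ℝ := ⋃ t ∈ range m, {E | |th U E ((t + 1) * p)| < 2 * r}
  let B : ℕ → Set ℝ := fun N => (G \ X) ∩ {E | |th U E ((N + 1) * p)| < r}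
  have o : ∀ n s, MeasurableSet {E | |th U E n| < s} := fun n s =>
    (isOpen_lt (th_cont U n).abs continuous_const).measurableSet
  have mB : ∀ N, MeasurableSet (B N) := fun N =>
    (hG.diff (Finset.measurableSet_biUnion _ fun _ _ => o _ _)).inter (o _ _)
  have vX : volume X ≤ ENNReal.ofReal (4 * r * m ^ 2 * p) := by
    refine (measure_biUnion_finset_le _ _).trans ((sum_le_card_nsmul _ _
      (ENNReal.ofReal (4 * r * m * p)) fun t ht => ?_).trans ?_)
    · obtain ⟨q, hq⟩ : ∃ q, (t + 1) * p = q + 1 :=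
        ⟨(t + 1) * p - 1, by have := Nat.mul_pos (by omega : 0 < t + 1) h.p0; omega⟩
      have : (q + 1 : ℝ) ≤ m * p := by
        have := Nat.mul_le_mul_right p (Finset.mem_range.1 ht : t + 1 ≤ m)
        rw [hq] at this
        exact_mod_cast this
      rw [hq]
      exact (vol_bad U q _ (by linarith) hr1).trans (ENNReal.ofReal_le_ofReal (by nlinarith))
    · rw [card_range, nsmul_eq_mul, ← ENNReal.ofReal_natCast,
        ← ENNReal.ofReal_mul (Nat.cast_nonneg _)]
      exact ENNReal.ofReal_le_ofReal (le_of_eq (by ring))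
  have dj : ∀ a b, a < b → b < m → Disjoint (B (K + a)) (B (K + b)) := by
    intro a b hab hb
    rw [Set.disjoint_left]
    rintro E ⟨⟨e1, e2⟩, e3⟩ ⟨-, e4⟩
    obtain ⟨t, rfl⟩ := Nat.exists_eq_add_of_lt hab
    refine e2 (mem_iUnion₂.2 ⟨t, Finset.mem_range.2 (by omega), (f E e1).two h (K + a + 1) _ e3 ?_⟩)
    rwa [show K + a + 1 + (t + 1) = K + (a + t + 1) + 1 by ring]
  have s1 : ∑ a ∈ range m, volume.real (B (K + a)) ≤ ∑ a ∈ range m, (2 / m : ℝ) := by
    rw [← measureReal_biUnion_finset (fun a ha b hb hab => by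
      rcases lt_or_gt_of_ne hab with c | c
      exacts [dj a b c (by simpa using hb), (dj b a c (by simpa using ha)).symm])
      (fun a _ => mB _) fun a _ => ne_top_of_le_ne_top h2 (measure_mono fun x hx => hx.1.1),
      sum_const, card_range, nsmul_eq_mul, mul_div_cancel₀ _ (by positivity)]
    exact (measureReal_mono (iUnion₂_subset fun a _ x hx => hx.1.1) h2).trans h3
  obtain ⟨a, -, ha⟩ := exists_le_of_sum_le (nonempty_range_iff.2 hm.ne') s1
  refine ⟨K + a, Nat.le_add_right _ _, (measureReal_mono (s₂ := B (K + a) ∪ X) (fun x hx => ?_)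
    (measure_union_ne_top (ne_top_of_le_ne_top h2 (measure_mono fun x hx => hx.1.1))
      (ne_top_of_le_ne_top ENNReal.ofReal_ne_top vX))).trans ((measureReal_union_le _ _).trans
      (add_le_add ha (ENNReal.toReal_le_of_le_ofReal (by positivity) vX)))⟩
  by_cases c : x ∈ X
  exacts [Or.inr c, Or.inl ⟨⟨hx.1, c⟩, hx.2⟩]

end Pool.Agent.H.MP_3ab43d_mp
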