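import Mathlib

namespace Pool.Agent.H.MP_3ab43d_mp

open Filter Topology Set MeasureTheory CompactlySupported
open scoped InnerProductSpace

section
variable {E : Type} [NormedAddCommGroup E] [InnerProductSpace ℂ E] [CompleteSpace E]

lemma iso {ι : Type} [DecidableEq ι] {e : ι → E} (he : Orthonormal ℂ e) :
    ∃ J : lp (fun _ : ι => ℂ) 2 →L[ℂ] E, (∀ c φ, HasSum (fun n => c n * ⟪φ, e n⟫_ℂ) ⟪φ, J c⟫_ℂ) ∧
      ∀ ψ n, ContinuousLinearMap.adjoint J ψ n = ⟪e n, ψ⟫_ℂ := by
  refine ⟨he.orthogonalFamily.linearIsometry.toContinuousLinearMap, fun c φ => ?_, fun ψ n => ?_⟩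
  · simpa using (he.orthogonalFamily.hasSum_linearIsometry c).mapL (innerSL ℂ φ)
  · have := lp.inner_single_left (𝕜 := ℂ) n (1 : ℂ) (ContinuousLinearMap.adjoint
      he.orthogonalFamily.linearIsometry.toContinuousLinearMap ψ)
    rw [ContinuousLinearMap.adjoint_inner_right] at this
    simpa [OrthogonalFamily.linearIsometry_apply_single] using this.symm

lemma cfc_sq (T : E →L[ℂ] E) (f : ℝ → ℝ) (hf : ContinuousOn f (spectrum ℝ T)) (ψ : E) :
    ⟪ψ, cfc (fun x => f x * f x) T ψ⟫_ℂ = ((‖cfc f T ψ‖ ^ 2 : ℝ) : ℂ) := by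
  have s : IsSelfAdjoint (cfc f T) := cfc_predicate f T
  rw [cfc_mul f f T hf hf, ContinuousLinearMap.mul_apply, ← s.isSymmetric.apply_clm,
    inner_self_eq_norm_sq_to_K]
  simp

def IsSM (T : E →L[ℂ] E) (ψ : E) (μ : Measure ℝ) : Prop :=
  IsFiniteMeasure μ ∧ ∀ f : ℝ → ℝ, Continuous f → Integrable f μ ∧
    ((∫ x, f x ∂μ : ℝ) : ℂ) = ⟪ψ, cfc f T ψ⟫_ℂ

lemma specM (T : E →L[ℂ] E) (hT : IsSelfAdjoint T) (ψ : E) : ∃ μ, IsSM T ψ μ := by
  have hre : ∀ A : E →L[ℂ] E, IsSelfAdjoint A → ((⟪ψ, A ψ⟫_ℂ).re : ℂ) = ⟪ψ, A ψ⟫_ℂ := by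
    intro A hA
    rw [← Complex.conj_eq_iff_re, inner_conj_symm]
    exact hA.isSymmetric.apply_clm ψ ψ
  let Λ : C_c(spectrum ℝ T, ℝ) →ₚ[ℝ] ℝ := PositiveLinearMap.mk₀
    { toFun := fun g => (⟪ψ, cfcHom hT g.toContinuousMap ψ⟫_ℂ).re
      map_add' := fun a b => by
        have : (a + b).toContinuousMap = a.toContinuousMap + b.toContinuousMap := rfl
        simp [this, inner_add_right]
      map_smul' := fun c a => by
        have : (c • a).toContinuousMap = c • a.toContinuousMap := rfl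
        simp [this, inner_smul_right_eq_smul] } fun g hg => by
      have h1 : (0 : E →L[ℂ] E) ≤ cfcHom hT g.toContinuousMap :=
        (cfcHom_nonneg_iff hT).2 fun x => hg x
      exact ((ContinuousLinearMap.nonneg_iff_isPositive _).1 h1).re_inner_nonneg_right ψ
  refine ⟨(RealRMK.rieszMeasure Λ).map Subtype.val, inferInstance, fun f hf => ?_⟩
  let g : C_c(spectrum ℝ T, ℝ) :=
    ⟨⟨fun x => f x, hf.comp continuous_subtype_val⟩, HasCompactSupport.of_compactSpace _⟩
  refine ⟨(integrable_map_measure hf.aestronglyMeasurable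
    measurable_subtype_coe.aemeasurable).2 g.integrable, ?_⟩
  rw [integral_map measurable_subtype_coe.aemeasurable hf.aestronglyMeasurable,
    ← hre _ (cfc_predicate f T), cfc_apply f T hT hf.continuousOn]
  exact congrArg _ (RealRMK.integral_rieszMeasure Λ g)

lemma IsSM.sq {T : E →L[ℂ] E} {ψ : E} {μ : Measure ℝ} (h : IsSM T ψ μ) (f : ℝ → ℝ)
    (hf : Continuous f) : ∫ x, f x * f x ∂μ = ‖cfc f T ψ‖ ^ 2 := by
  have := (h.2 (fun x => f x * f x) (hf.mul hf)).2
  rw [cfc_sq T f hf.continuousOn] at this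
  exact_mod_cast this

lemma IsSM.mom {T : E →L[ℂ] E} (hT : IsSelfAdjoint T) {ψ : E} {μ : Measure ℝ} (h : IsSM T ψ μ)
    (k : ℕ) : Integrable (fun x : ℝ => x ^ k) μ ∧
      ((∫ x, x ^ k ∂μ : ℝ) : ℂ) = ⟪ψ, (T ^ k) ψ⟫_ℂ := by
  have := h.2 (fun x => x ^ k) (by fun_prop)
  rwa [cfc_pow_id T k hT] at this

lemma cfc_lin (T : E →L[ℂ] E) (hT : IsSelfAdjoint T) (c : ℝ) (ψ : E) :
    cfc (fun x => x - c) T ψ = T ψ - (c : ℂ) • ψ := by
  rw [cfc_sub _ _ T, cfc_id' ℝ T, cfc_const _ T, Algebra.algebraMap_eq_smul_one]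
  rfl

lemma cfc_eig (T : E →L[ℂ] E) (hT : IsSelfAdjoint T) (c : ℝ) (u : E) (hu : T u = (c : ℂ) • u)
    (f : ℝ → ℝ) (hf : Continuous f) : cfc f T u = (f c : ℂ) • u := by
  obtain ⟨μ, hμ⟩ := specM T hT u
  have h1 := hμ.sq (fun x => x - c) (by fun_prop)
  rw [cfc_lin T hT, hu, sub_self, norm_zero, zero_pow two_ne_zero,
    integral_eq_zero_iff_of_nonneg (fun x => mul_self_nonneg _)
      (hμ.2 (fun x => (x - c) * (x - c)) (by fun_prop)).1] at h1
  have h2 := hμ.sq (fun x => f x - f c) (by fun_prop)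
  rw [integral_congr_ae (g := fun _ => 0) (by
    filter_upwards [h1] with x hx
    rw [sub_eq_zero.1 (mul_self_eq_zero.1 hx)]
    simp), integral_zero, eq_comm, sq_eq_zero_iff, norm_eq_zero, cfc_sub _ _ T, cfc_const _ T,
    Algebra.algebraMap_eq_smul_one] at h2
  exact sub_eq_zero.1 h2

lemma IsSM.atom {T : E →L[ℂ] E} (hT : IsSelfAdjoint T) {ψ : E} {μ : Measure ℝ} (h : IsSM T ψ μ)
    (c : ℝ) (u : E) (hu : T u = (c : ℂ) • u) (h1 : ⟪u, ψ⟫_ℂ = 1) : μ {c} ≠ 0 := by
  haveI := h.1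
  let f : ℕ → ℝ → ℝ := fun n x => max 0 (1 - n * |x - c|)
  have cf : ∀ n, Continuous (f n) := fun n => by fun_prop
  have a1 : ∀ n, 1 ≤ ‖u‖ ^ 2 * ∫ x, f n x * f n x ∂μ := by
    intro n
    have s : IsSelfAdjoint (cfc (f n) T) := cfc_predicate _ T
    have e : ⟪u, cfc (f n) T ψ⟫_ℂ = 1 := by
      rw [← s.isSymmetric.apply_clm, cfc_eig T hT c u hu _ (cf n), inner_smul_left, h1]
      simp [f]
    have := norm_inner_le_norm (𝕜 := ℂ) u (cfc (f n) T ψ)
    rw [e, norm_one] at this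
    rw [h.sq _ (cf n), ← mul_pow]
    exact one_le_pow₀ this
  have a2 : Tendsto (fun n => ∫ x, f n x * f n x ∂μ) atTop
      (𝓝 (∫ x, indicator {c} (fun _ => (1 : ℝ)) x ∂μ)) := by
    refine tendsto_integral_of_dominated_convergence (fun _ => 1)
      (fun n => ((cf n).mul (cf n)).aestronglyMeasurable) (integrable_const _)
      (fun n => Eventually.of_forall fun x => ?_) (Eventually.of_forall fun x => ?_)
    · have b1 : 0 ≤ f n x := le_max_left _ _
      have b2 : f n x ≤ 1 := max_le zero_le_one (sub_le_self _ (by positivity))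
      rw [Real.norm_of_nonneg (mul_nonneg b1 b1)]
      nlinarith
    · by_cases hx : x = c
      · simp [f, hx]
      · rw [indicator_of_notMem (by simpa using hx)]
        have hp : 0 < |x - c| := abs_pos.2 (sub_ne_zero.2 hx)
        refine tendsto_const_nhds.congr' ?_
        filter_upwards [(tendsto_natCast_atTop_atTop (R := ℝ)).eventually_ge_atTop (1 / |x - c|)]
          with n hn
        rw [div_le_iff₀ hp] at hn
        have : f n x = 0 := max_eq_left (by linarith)
        rw [this, mul_zero]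
  intro h0
  have := ge_of_tendsto' (a2.const_mul (‖u‖ ^ 2)) a1
  rw [integral_indicator (measurableSet_singleton c), Measure.restrict_eq_zero.2 h0] at this
  norm_num at this

lemma IsSM.nsing {T : E →L[ℂ] E} (hT : IsSelfAdjoint T) {ψ : E} {μ : Measure ℝ} (h : IsSM T ψ μ)
    (G : Set ℝ) (hG : MeasurableSet G) (h0 : volume G ≠ 0) (C : ℝ)
    (hw : ∀ c ∈ G, ∀ L : ℕ, 0 < L → ∃ w : E, ⟪w, ψ⟫_ℂ = 1 ∧ ‖w‖ ^ 2 ≤ C * L ∧
      ‖T w - (c : ℂ) • w‖ ^ 2 ≤ C / L) : ¬ μ ⟂ₘ volume := by
  haveI := h.1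
  rintro ⟨S, mS, hS1, hS2⟩
  have : volume (G ∩ S) ≠ 0 := by rwa [measure_inter_conull hS2]
  obtain ⟨K, hK, cK, pK⟩ := (hG.inter mS).exists_lt_isCompact (pos_iff_ne_zero.2 this)
  let P : ℕ → ℝ → ℝ → ℝ := fun L c x => (L + 1) * (1 + ((L + 1) * (x - c)) ^ 2)⁻¹
  have cP : ∀ L, Continuous fun q : ℝ × ℝ => P L q.1 q.2 := fun L =>
    continuous_const.mul (Continuous.inv₀ (by fun_prop) fun q => by positivity)
  have P0 : ∀ L c x, 0 ≤ P L c x := fun L c x => by positivity
  have low : ∀ L, ∀ c ∈ K, 1 ≤ 4 * C * ∫ x, P L c x ∂μ := by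
    intro L c hc
    obtain ⟨w, w1, w2, w3⟩ := hw c (hK hc).1 (L + 1) L.succ_pos
    push_cast at w2 w3
    obtain ⟨l, hl⟩ : ∃ l : ℝ, l = L + 1 := ⟨_, rfl⟩
    have l0 : 0 < l := by rw [hl]; positivity
    simp only [P, ← hl] at *
    have C0 : 0 ≤ C := by
      by_contra hc
      nlinarith [sq_nonneg ‖w‖, not_le.1 hc]
    let b : ℝ → ℝ := fun x => (1 + (l * (x - c)) ^ 2)⁻¹
    have cb : Continuous b := Continuous.inv₀ (by fun_prop) fun q => by positivity
    let a : ℝ → ℝ := fun x => l ^ 2 * (x - c) * b x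
    have ca : Continuous a := by fun_prop
    have e1 : (fun x => (x - c) * a x + b x) = fun _ => 1 := by
      funext x
      simp only [a, b]
      field_simp
      ring
    have s : IsSelfAdjoint (cfc (fun x => x - c) T) := cfc_predicate _ T
    have e2 : (1 : ℂ) = ⟪T w - (c : ℂ) • w, cfc a T ψ⟫_ℂ + ⟪w, cfc b T ψ⟫_ℂ := by
      rw [← cfc_lin T hT, s.isSymmetric.apply_clm, ← inner_add_right,
        ← ContinuousLinearMap.mul_apply, ← ContinuousLinearMap.add_apply,
        ← cfc_mul _ a T (by fun_prop) ca.continuousOn, ← cfc_add T _ _ (by fun_prop)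
          cb.continuousOn, e1, cfc_const_one ℝ T, ContinuousLinearMap.one_apply, w1]
    have e3 := (congrArg norm e2).trans_le ((norm_add_le _ _).trans
      (add_le_add (norm_inner_le_norm _ _) (norm_inner_le_norm _ _)))
    rw [norm_one] at e3
    have ib := (h.2 b cb).1
    have I0 : 0 ≤ ∫ x, b x ∂μ := integral_nonneg fun x => by positivity
    have e4 : ‖cfc a T ψ‖ ^ 2 ≤ l ^ 2 * ∫ x, b x ∂μ := by
      rw [← h.sq a ca, ← integral_const_mul]
      refine integral_mono (h.2 _ (ca.mul ca)).1 (ib.const_mul _) fun x => ?_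
      simp only [a, b]
      field_simp
      nlinarith [sq_nonneg (l * (x - c))]
    have e5 : ‖cfc b T ψ‖ ^ 2 ≤ ∫ x, b x ∂μ := by
      rw [← h.sq b cb]
      refine integral_mono (h.2 _ (cb.mul cb)).1 ib fun x => ?_
      simp only [b]
      field_simp
      nlinarith [sq_nonneg (l * (x - c))]
    rw [integral_const_mul]
    have e6 := mul_le_mul w3 e4 (by positivity) (by positivity)
    have e7 := mul_le_mul w2 e5 (by positivity) (by positivity)
    have e8 : C / l * (l ^ 2 * ∫ x, b x ∂μ) = C * l * ∫ x, b x ∂μ := by field_simp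
    rw [← mul_pow] at e6 e7
    nlinarith [sq_nonneg (‖T w - (c : ℂ) • w‖ * ‖cfc a T ψ‖ - ‖w‖ * ‖cfc b T ψ‖)]
  haveI : IsFiniteMeasure (volume.restrict K) := isFiniteMeasure_restrict.2 cK.measure_lt_top.ne
  have P1 : ∀ L c x, ‖P L c x‖ ≤ L + 1 := fun L c x => by
    rw [Real.norm_of_nonneg (P0 L c x)]
    exact mul_le_of_le_one_right (by positivity)
      (inv_le_one_of_one_le₀ (le_add_of_nonneg_right (sq_nonneg _)))
  have iP : ∀ L, Integrable (Function.uncurry (P L)) ((volume.restrict K).prod μ) := fun L =>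
    Integrable.of_bound (cP L).aestronglyMeasurable (L + 1) (Eventually.of_forall fun q => P1 L _ _)
  have low2 : ∀ L, volume.real K ≤ 4 * C * ∫ x, (∫ c in K, P L c x) ∂μ := by
    intro L
    rw [← integral_integral_swap (iP L), ← integral_const_mul]
    have := setIntegral_mono_on (s := K) (μ := volume) (f := fun _ => (1 : ℝ)) (integrable_const _)
      ((iP L).integral_prod_left.const_mul (4 * C)) cK.measurableSet (low L)
    simpa using this
  have lim : Tendsto (fun L => ∫ x, (∫ c in K, P L c x) ∂μ) atTop (𝓝 (∫ x, (0 : ℝ) ∂μ)) := by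
    refine tendsto_integral_of_dominated_convergence (fun _ => Real.pi)
      (fun L => (iP L).integral_prod_right.1) (integrable_const _)
      (fun L => Eventually.of_forall fun x => ?_) ?_
    · have l0 : (0 : ℝ) < L + 1 := by positivity
      have i1 : Integrable fun c => P L c x :=
        ((integrable_inv_one_add_sq.comp_mul_left' l0.ne').comp_sub_left x).const_mul _
      rw [Real.norm_of_nonneg (integral_nonneg fun c => P0 L c x)]
      refine (setIntegral_le_integral i1 (Eventually.of_forall fun c => P0 L c x)).trans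
        (le_of_eq ?_)
      simp only [P]
      rw [integral_const_mul, integral_sub_left_eq_self
        (fun y => (1 + (((L : ℝ) + 1) * y) ^ 2)⁻¹) volume x,
        Measure.integral_comp_mul_left (fun y : ℝ => (1 + y ^ 2)⁻¹), integral_univ_inv_one_add_sq,
        abs_of_pos (inv_pos.2 l0), smul_eq_mul]
      field_simp
    · have : ∀ᵐ x ∂μ, x ∉ S := by simpa [ae_iff] using hS1
      filter_upwards [this] with x hx
      obtain ⟨d, d0, hd⟩ := Metric.isOpen_iff.1 cK.isClosed.isOpen_compl x fun h => hx (hK h).2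
      have t : Tendsto (fun L : ℕ => (1 / ((L : ℝ) + 1)) / d ^ 2 * volume.real K) atTop (𝓝 0) := by
        simpa using (tendsto_one_div_add_atTop_nhds_zero_nat.div_const (d ^ 2)).mul_const
          (volume.real K)
      refine squeeze_zero_norm (fun L => norm_setIntegral_le_of_norm_le_const cK.measure_lt_top
        fun c hc => ?_) t
      have : d ≤ |x - c| := by
        by_contra hc'
        exact hd (by rw [Metric.mem_ball, Real.dist_eq, abs_sub_comm]; exact not_le.1 hc') hc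
      have h2 : d ^ 2 ≤ (x - c) ^ 2 := by rw [← sq_abs (x - c)]; gcongr
      rw [Real.norm_of_nonneg (P0 L c x)]
      simp only [P]
      field_simp
      nlinarith [sq_nonneg ((L : ℝ) + 1)]
  have := ge_of_tendsto' (lim.const_mul (4 * C)) low2
  have p2 : 0 < volume.real K := ENNReal.toReal_pos pK.ne' cK.measure_lt_top.ne
  simp at this
  linarith

end

abbrev L2 : Type := lp (fun _ : ℤ => ℂ) 2

noncomputable def dl (n : ℤ) : L2 := lp.single 2 n 1

lemma dl_inner (n : ℤ) (ψ : L2) : ⟪dl n, ψ⟫_ℂ = ψ n := by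
  simp [dl, lp.inner_single_left]

lemma dl_apply (n m : ℤ) : dl n m = if m = n then 1 else 0 := by
  simp [dl, lp.single_apply, Pi.single_apply]

lemma exH (V : ℤ → ℝ) (K : ℝ) (hV : ∀ n, |V n| ≤ K) :
    ∃ H : L2 →L[ℂ] L2, IsSelfAdjoint H ∧ ∀ (ψ : L2) (n : ℤ),
      H ψ n = ψ (n + 1) + ψ (n - 1) + (V n : ℂ) * ψ n := by
  have on : Orthonormal ℂ dl := by
    rw [orthonormal_iff_ite]
    intro n m
    rw [dl_inner, dl_apply]
  obtain ⟨J, a1, a2⟩ := iso (on.comp _ (add_left_injective 1))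
  have hK : 0 ≤ K := (abs_nonneg _).trans (hV 0)
  let M : L2 →L[ℂ] L2 := lp.mapCLM 2 (fun x => (V x : ℂ) • ContinuousLinearMap.id ℂ ℂ) hK
    fun x => by simpa [norm_smul] using hV x
  have hM : ∀ (ψ : L2) x, M ψ x = V x * ψ x := fun ψ x => rfl
  refine ⟨ContinuousLinearMap.adjoint J + J + M, IsSelfAdjoint.add ?_ ?_, fun ψ x => ?_⟩
  · rw [ContinuousLinearMap.isSelfAdjoint_iff']
    simp [add_comm]
  · rw [ContinuousLinearMap.isSelfAdjoint_iff_isSymmetric]
    intro φ ψ
    simp only [ContinuousLinearMap.coe_coe, lp.inner_eq_tsum, hM]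
    refine tsum_congr fun x => ?_
    simp
    ring
  · rw [ContinuousLinearMap.add_apply, ContinuousLinearMap.add_apply, lp.coeFn_add, Pi.add_apply,
      lp.coeFn_add, Pi.add_apply, hM, a2, ← dl_inner x (J ψ)]
    simp only [Function.comp, dl_inner]
    congr 2
    rw [← dl_inner x (J ψ)]
    refine (a1 ψ _).unique ?_
    have := hasSum_single (f := fun n => ψ n * ⟪dl x, (dl ∘ fun x => x + 1) n⟫_ℂ) (x - 1)
      fun n hn => by
        simp only [Function.comp, dl_inner, dl_apply]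
        rw [if_neg (by omega), mul_zero]
    simp only [Function.comp, dl_inner, dl_apply, sub_add_cancel, if_true, mul_one] at this ⊢
    exact this

end Pool.Agent.H.MP_3ab43d_mp
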