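import Mathlib
import Pool.Agent.H.MP_3ab43d_mp.Sp

namespace Pool.Agent.H.MP_3ab43d_mp

open Filter Topology Set MeasureTheory
open scoped InnerProductSpace

lemma normsq_le (w : L2) (s : Finset ℤ) (B : ℝ) (h0 : ∀ n ∉ s, w n = 0) (h1 : ∀ n, ‖w n‖ ≤ B) :
    ‖w‖ ^ 2 ≤ s.card * B ^ 2 := by
  have := lp.norm_rpow_eq_tsum (p := 2) (by norm_num) w
  simp only [ENNReal.toReal_ofNat, Real.rpow_ofNat] at this
  rw [this, tsum_eq_sum (s := s) fun n hn => by simp [h0 n hn]]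
  have := Finset.sum_le_card_nsmul s (fun n => ‖w n‖ ^ 2) (B ^ 2)
    fun n _ => pow_le_pow_left₀ (norm_nonneg _) (h1 n) 2
  simpa using this

variable {V : ℤ → ℝ} {H : L2 →L[ℂ] L2}

lemma pow_dl (hH : ∀ (ψ : L2) (n : ℤ), H ψ n = ψ (n + 1) + ψ (n - 1) + (V n : ℂ) * ψ n) (j : ℤ)
    (k : ℕ) (n : ℤ) : (H ^ k) (dl j) n =
      ((fun u : ℤ → ℝ => fun m : ℤ => u (m + 1) + u (m - 1) + V m * u m)^[k]
        (Pi.single j (1 : ℝ) : ℤ → ℝ) n : ℝ) := by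
  induction k generalizing n with
  | zero => simp [dl_apply, Pi.single_apply]; split_ifs <;> simp
  | succ k ih =>
    rw [pow_succ', ContinuousLinearMap.mul_apply, hH, Function.iterate_succ_apply', ih, ih, ih]
    push_cast
    rfl

lemma pow_fun (hH : ∀ (ψ : L2) (n : ℤ), H ψ n = ψ (n + 1) + ψ (n - 1) + (V n : ℂ) * ψ n) (ψ : L2)
    (k : ℕ) : ⇑((H ^ k) ψ) =
      (fun u : ℤ → ℂ => fun m : ℤ => u (m + 1) + u (m - 1) + (V m : ℂ) * u m)^[k] ψ := by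
  induction k with
  | zero => rfl
  | succ k ih =>
    rw [pow_succ', ContinuousLinearMap.mul_apply, Function.iterate_succ_apply', ← ih]
    exact funext (hH _)

lemma test (hH : ∀ (ψ : L2) (n : ℤ), H ψ n = ψ (n + 1) + ψ (n - 1) + (V n : ℂ) * ψ n) (j : ℤ)
    (c C : ℝ) (φ : ℤ → ℝ) (h1 : φ j = 1) (h2 : ∀ n, |φ n| ≤ C)
    (h3 : ∀ n, φ (n + 1) + φ (n - 1) + V n * φ n = c * φ n) (L : ℕ) (hL : 0 < L) :
    ∃ w : L2, ⟪w, dl j⟫_ℂ = 1 ∧ ‖w‖ ^ 2 ≤ 12 * C ^ 2 * L ∧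
      ‖H w - (c : ℂ) • w‖ ^ 2 ≤ 12 * C ^ 2 / L := by
  have l1 : (1 : ℝ) ≤ L := by exact_mod_cast hL
  have C0 : 0 ≤ C := (abs_nonneg _).trans (h2 0)
  let χ : ℤ → ℝ := fun n => max 0 (1 - |(n : ℝ) - j| / L)
  have χ0 : ∀ n : ℤ, (L : ℤ) ≤ |n - j| → χ n = 0 := fun n hn => max_eq_left (by
    have : (L : ℝ) ≤ |(n : ℝ) - j| := by exact_mod_cast hn
    rw [sub_nonpos, le_div_iff₀ (by linarith)]; linarith)
  have χ1 : ∀ n, |χ n| ≤ 1 := fun n => by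
    rw [abs_of_nonneg (le_max_left _ _)]
    exact max_le zero_le_one (sub_le_self _ (by positivity))
  have χ2 : ∀ n m : ℤ, |(n : ℝ) - m| ≤ 1 → |χ n - χ m| ≤ 1 / L := fun n m h => by
    refine (abs_max_sub_max_le_max _ _ _ _).trans (max_le (by simp) ?_)
    rw [sub_sub_sub_cancel_left, ← sub_div, abs_div, abs_of_pos (by linarith : (0 : ℝ) < L)]
    gcongr
    refine (abs_abs_sub_abs_le _ _).trans ?_
    rwa [sub_sub_sub_cancel_right, abs_sub_comm]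
  have out : ∀ n ∉ Finset.Icc (j - L) (j + L), (L : ℤ) + 1 ≤ |n - j| := fun n hn => by
    rw [Finset.mem_Icc] at hn
    rw [le_abs]; omega
  have cd : ((Finset.Icc (j - L) (j + L)).card : ℝ) = 2 * L + 1 := by
    rw [Int.card_Icc, show j + L + 1 - (j - L) = ((2 * L + 1 : ℕ) : ℤ) by push_cast; ring,
      Int.toNat_natCast]
    push_cast; rfl
  let w : L2 := ⟨fun n => ((χ n * φ n : ℝ) : ℂ), (memℓp_zero ((Finset.Icc (j - L)
    (j + L)).finite_toSet.subset fun n hn => by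
      by_contra hc
      exact hn (by simp [χ0 n (by have := out n hc; omega)]))).of_exponent_ge zero_le⟩
  have hw : ∀ n, w n = ((χ n * φ n : ℝ) : ℂ) := fun _ => rfl
  have e : ∀ n, (H w - (c : ℂ) • w : L2) n =
      (((χ (n + 1) - χ n) * φ (n + 1) + (χ (n - 1) - χ n) * φ (n - 1) : ℝ) : ℂ) := fun n => by
    rw [lp.coeFn_sub, Pi.sub_apply, lp.coeFn_smul, Pi.smul_apply, hH, hw, hw, hw, smul_eq_mul]
    have := congrArg (fun x : ℝ => (x : ℂ)) (h3 n)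
    push_cast at this ⊢
    linear_combination (χ n : ℂ) * this
  refine ⟨w, ?_, (normsq_le w (Finset.Icc (j - L) (j + L)) C (fun n hn => ?_) fun n => ?_).trans ?_,
    (normsq_le _ (Finset.Icc (j - L) (j + L)) (2 * C / L) (fun n hn => ?_) fun n => ?_).trans ?_⟩
  · rw [← inner_conj_symm, dl_inner, hw]
    simp [χ, h1]
  · simp [hw, χ0 n (by have := out n hn; omega)]
  · rw [hw, Complex.norm_real, Real.norm_eq_abs, abs_mul]
    simpa using mul_le_mul (χ1 n) (h2 n) (abs_nonneg _) zero_le_one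
  · rw [cd]; nlinarith [sq_nonneg C]
  · have := out n hn
    rw [le_abs] at this
    rw [e, χ0 n, χ0 (n + 1), χ0 (n - 1)] <;> first | (rw [le_abs]; omega) | simp
  · rw [e, Complex.norm_real, Real.norm_eq_abs]
    refine (abs_add_le _ _).trans ?_
    rw [abs_mul, abs_mul]
    have a1 := mul_le_mul (χ2 (n + 1) n (by simp)) (h2 (n + 1)) (abs_nonneg _) (by positivity)
    have a2 := mul_le_mul (χ2 (n - 1) n (by simp)) (h2 (n - 1)) (abs_nonneg _) (by positivity)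
    have : 2 * C / L = 1 / L * C + 1 / L * C := by ring
    linarith
  · rw [cd]
    field_simp
    nlinarith [sq_nonneg C]

lemma package (V : ℤ → ℝ) (K : ℝ) (hV : ∀ n, |V n| ≤ K) (u : ℤ → ℝ) (u0 : u 0 = 1)
    (us : Summable fun n => |u n|) (ue : ∀ n, u (n + 1) + u (n - 1) + V n * u n = 0)
    (G : Set ℝ) (hG : MeasurableSet G) (h0 : volume G ≠ 0) (C : ℝ)
    (hb : ∀ c ∈ G, ∃ φ : ℤ → ℝ, φ 1 = 1 ∧ (∀ n, |φ n| ≤ C) ∧
      ∀ n, φ (n + 1) + φ (n - 1) + V n * φ n = c * φ n) :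
    ∃ (H : L2 →L[ℂ] L2) (μ : ℤ → Measure ℝ),
      (∀ (ψ : L2) (n : ℤ), H ψ n = ψ (n + 1) + ψ (n - 1) + (V n : ℂ) * ψ n) ∧
      (∀ j, IsFiniteMeasure (μ j) ∧ ∀ k : ℕ, Integrable (fun x : ℝ => x ^ k) (μ j) ∧
        ((∫ x, x ^ k ∂μ j : ℝ) : ℂ) = ⟪dl j, (H ^ k) (dl j)⟫_ℂ) ∧
      μ 0 {0} ≠ 0 ∧ ¬ μ 1 ⟂ₘ volume := by
  obtain ⟨H, hs, hH⟩ := exH V K hV
  choose μ hμ using fun j => specM H hs (dl j)
  refine ⟨H, μ, hH, fun j => ⟨(hμ j).1, (hμ j).mom hs⟩, ?_, (hμ 1).nsing hs G hG h0 (12 * C ^ 2)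
    fun c hc L hL => ?_⟩
  · have m1 : Memℓp (fun n => (u n : ℂ)) 1 := memℓp_gen (by simpa using us)
    let w : L2 := ⟨fun n => (u n : ℂ), m1.of_exponent_ge one_le_two⟩
    have hw : ∀ n, w n = (u n : ℂ) := fun _ => rfl
    refine (hμ 0).atom hs 0 w (lp.ext (funext fun n => ?_)) ?_
    · rw [hH, hw, hw, hw]
      simp only [Complex.ofReal_zero, zero_smul, lp.coeFn_zero, Pi.zero_apply]
      exact_mod_cast ue n
    · rw [← inner_conj_symm, dl_inner, hw, u0]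
      simp
  · obtain ⟨φ, a1, a2, a3⟩ := hb c hc
    exact test hH 1 c C φ a1 a2 a3 L hL

end Pool.Agent.H.MP_3ab43d_mp
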