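import Mathlib
import Pool.Agent.H.MP_3ab43d_mp.Fl
import Pool.Agent.H.MP_3ab43d_mp.Sp2

namespace Pool.Agent.H.MP_3ab43d_mp

open Filter Topology Set Finset MeasureTheory
open scoped InnerProductSpace

lemma dc {S : Type} (P : ℕ → S → Prop) (R : ℕ → S → S → Prop) (s0 : S) (h0 : P 0 s0)
    (hs : ∀ k s, P k s → ∃ s', P (k + 1) s' ∧ R k s s') :
    ∃ f : ℕ → S, f 0 = s0 ∧ ∀ k, P k (f k) ∧ R k (f k) (f (k + 1)) := by
  choose g g1 g2 using hs
  let F : ∀ k, {s // P k s} := fun k =>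
    Nat.rec ⟨s0, h0⟩ (fun k s => ⟨g k s.1 s.2, g1 k s.1 s.2⟩) k
  exact ⟨fun k => (F k).1, rfl, fun k => ⟨(F k).2, g2 k _ (F k).2⟩⟩

lemma bigN {l : ℝ} (h0 : 0 < l) (h1 : l < 1) (ε : ℝ) (hε : 0 < ε) :
    ∃ K : ℕ, 1 ≤ K ∧ ∀ N : ℕ, K ≤ N → ((N : ℝ) + 1) * l ^ N ≤ ε := by
  have := (tendsto_self_mul_const_pow_of_lt_one h0.le h1).add
    (tendsto_pow_atTop_nhds_zero_of_lt_one h0.le h1)
  rw [add_zero] at this
  obtain ⟨K, hK⟩ := eventually_atTop.1 (this.eventually_le_const hε)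
  exact ⟨K + 1, by omega, fun N hN => by linarith [hK N (by omega)]⟩

lemma step {p : ℕ} {U : ℤ → ℝ} {l l' a : ℝ} {G : Set ℝ} {m : ℕ} (hm : 8 ≤ m) (h : Inv p U l)
    (a0 : 0 < l') (a1 : l' < 1) (g1 : IsClosed G) (g2 : G ⊆ Icc (a - 1) (a + 1))
    (g3 : 1 + 8 / (m : ℝ) ≤ volume.real G) (g4 : ∀ E ∈ G, Fl p U E (1 / (4 * m)))
    (g5 : (l⁻¹ - l) / th U 0 p ≤ 1 / (24 * m ^ 4 * p)) :
    ∃ N ≥ 1, ∃ G' ⊆ G, IsClosed G' ∧ 1 + 8 / ((2 * m : ℕ) : ℝ) ≤ volume.real G' ∧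
      (∀ E ∈ G', Fl ((N + 1) * p) (fill U ((N + 1) * p) l') E (1 / (4 * (2 * m : ℕ)))) ∧
      (l' + l'⁻¹) / th (fill U ((N + 1) * p) l') 0 ((N + 1) * p) ≤
        1 / (24 * (2 * m : ℕ) ^ 4 * ((N + 1) * p : ℕ)) ∧
      |fill U ((N + 1) * p) l' 0 - U 0| ≤ 1 / m := by
  have m8 : (8 : ℝ) ≤ m := by exact_mod_cast hm
  have p1 : (1 : ℝ) ≤ p := by exact_mod_cast h.p0
  have l2 : 2 ≤ l' + l'⁻¹ := by
    rw [← sub_nonneg, show l' + l'⁻¹ - 2 = (1 - l') ^ 2 / l' by field_simp; ring]; positivity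
  obtain ⟨K, K1, hK⟩ := bigN h.l0 h.l1 (1 / (24 * (2 * m) ^ 4 * p) / (l' + l'⁻¹)) (by positivity)
  have f1 : volume G ≠ ⊤ := ne_top_of_le_ne_top measure_Icc_lt_top.ne (measure_mono g2)
  have f2 : volume.real G ≤ 2 := (measureReal_mono g2 measure_Icc_lt_top.ne).trans (by
    rw [Real.volume_real_Icc_of_le (by linarith)]; linarith)
  have r1 : 2 * (1 / (2 * m ^ 3 * p) : ℝ) ≤ 1 := by
    rw [mul_one_div, div_le_one (by positivity)]
    nlinarith [pow_le_pow_left₀ (by norm_num) m8 3]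
  obtain ⟨N, hN, hv⟩ := pigeon h G g1.measurableSet f1 f2 g4 m K (by omega)
    (1 / (2 * m ^ 3 * p)) (by positivity) r1
  have t1 := h.one
  have n1 : (1 : ℝ) ≤ N + 1 := by linarith [(Nat.cast_nonneg N : (0 : ℝ) ≤ N)]
  have lp : 0 < l ^ N := pow_pos h.l0 N
  have b1 : (l' + l'⁻¹) * l ^ N ≤ 1 / (24 * (2 * m : ℕ) ^ 4 * ((N + 1) * p : ℕ)) := by
    have := hK N hN
    rw [le_div_iff₀ (by positivity), le_div_iff₀ (by positivity)] at this
    rw [le_div_iff₀ (by have := h.p0; positivity)]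
    push_cast
    linarith
  have b2 : (l' + l'⁻¹) / th U 0 ((N + 1) * p) ≤
      1 / (24 * (2 * m : ℕ) ^ 4 * ((N + 1) * p : ℕ)) := by
    refine le_trans ?_ b1
    rw [div_eq_mul_one_div]
    exact mul_le_mul_of_nonneg_left ((h.small N).trans (div_le_self lp.le t1)) (by linarith)
  have b3 : (1 : ℝ) / (24 * (2 * m : ℕ) ^ 4 * ((N + 1) * p : ℕ)) ≤ 1 / (24 * m ^ 4 * p) := by
    push_cast
    gcongr
    · linarith
    · exact le_mul_of_one_le_left (by linarith) n1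
  have b4 : |fill U ((N + 1) * p) l' 0 - U 0| ≤ 1 / (4 * m) * (1 / (2 * m ^ 3 * p)) := by
    have := h.delta N a0
    have e : (1 : ℝ) / (4 * m) * (1 / (2 * m ^ 3 * p)) = 3 * (1 / (24 * m ^ 4 * p)) := by
      field_simp; norm_num
    nlinarith
  have e1 : (1 : ℝ) / (4 * m) ≤ 1 / 32 := one_div_le_one_div_of_le (by norm_num) (by linarith)
  refine ⟨N, K1.trans hN, G ∩ {E | 1 / (2 * m ^ 3 * p) ≤ |th U E ((N + 1) * p)|}, inter_subset_left,
    g1.inter (isClosed_le continuous_const (th_cont U _).abs), ?_, fun E hE => ?_, ?_, ?_⟩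
  · have := measureReal_inter_add_diff (s := G) (μ := volume)
      (isOpen_lt (th_cont U ((N + 1) * p)).abs
        (continuous_const (y := (1 / (2 * m ^ 3 * p) : ℝ)))).measurableSet f1
    have e : G \ {E | |th U E ((N + 1) * p)| < 1 / (2 * m ^ 3 * p)} =
        G ∩ {E | 1 / (2 * m ^ 3 * p) ≤ |th U E ((N + 1) * p)|} := by
      ext E; simp only [mem_diff, mem_setOf_eq, not_lt, mem_inter_iff]
    have e2 : (4 : ℝ) * (1 / (2 * m ^ 3 * p)) * m ^ 2 * p = 2 / m := by field_simp; norm_num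
    have e3 : (8 : ℝ) / (2 * m : ℕ) = 8 / m - 2 / m - 2 / m := by push_cast; field_simp; norm_num
    rw [e] at this
    linarith
  · have := (g4 E hE.1).next h (by positivity) e1 N l' _ (by positivity) (by linarith) hE.2 b4
    rwa [show (1 : ℝ) / (4 * m) / 2 = 1 / (4 * (2 * m : ℕ)) by push_cast; field_simp] at this
  · rwa [th_congr (fill_off U _ l') 0 _ le_rfl]
  · refine b4.trans ((mul_le_of_le_one_right (by positivity) (by linarith)).trans ?_)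
    exact one_div_le_one_div_of_le (by linarith) (by linarith)

lemma prodb (l : ℕ → ℝ) (h0 : 0 < l 0) (h1 : l 0 < 1)
    (h : ∀ k : ℕ, l (k + 1) = 1 / (8 * (k + 1) * (k + 2))) (k : ℕ) :
    ∏ j ∈ range k, (1 + l j) / (1 - l j) ≤ 2 * ((1 + l 0) / (1 - l 0)) := by
  have r : 1 ≤ (1 + l 0) / (1 - l 0) := by rw [le_div_iff₀ (by linarith)]; linarith
  have key : ∀ k : ℕ, ∏ j ∈ range (k + 1), (1 + l j) / (1 - l j) ≤
      (2 - 1 / (k + 1)) * ((1 + l 0) / (1 - l 0)) := by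
    intro k
    induction k with
    | zero => norm_num
    | succ k ih =>
      have k0 : (0 : ℝ) ≤ k := Nat.cast_nonneg k
      have a : (1 + l (k + 1)) / (1 - l (k + 1)) =
          (8 * (k + 1) * (k + 2) + 1) / (8 * (k + 1) * (k + 2) - 1) := by
        have : (0 : ℝ) < 8 * (k + 1) * (k + 2) - 1 := by nlinarith
        rw [h]; field_simp
      have b : (2 - 1 / ((k : ℝ) + 1)) * ((1 + l (k + 1)) / (1 - l (k + 1))) ≤
          2 - 1 / ((k + 1 : ℕ) + 1) := by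
        have : (0 : ℝ) < 8 * (k + 1) * (k + 2) - 1 := by nlinarith
        rw [a, ← sub_nonneg]
        push_cast
        have e : (2 - 1 / ((k : ℝ) + 1 + 1)) - (2 - 1 / (k + 1)) *
            ((8 * (k + 1) * (k + 2) + 1) / (8 * (k + 1) * (k + 2) - 1)) =
            (4 * k ^ 2 + 14 * k + 11) / ((k + 1) * (k + 2) * (8 * (k + 1) * (k + 2) - 1)) := by
          obtain ⟨y, hy⟩ : ∃ y : ℝ, y = 8 * (k + 1) * (k + 2) - 1 := ⟨_, rfl⟩
          rw [← hy] at this ⊢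
          field_simp
          rw [hy]; ring
        rw [e]; positivity
      have c : 0 ≤ (1 + l (k + 1)) / (1 - l (k + 1)) := by
        have : (0 : ℝ) < 8 * (k + 1) * (k + 2) - 1 := by nlinarith
        rw [a]; positivity
      rw [prod_range_succ]
      calc _ ≤ (2 - 1 / (k + 1)) * ((1 + l 0) / (1 - l 0)) *
            ((1 + l (k + 1)) / (1 - l (k + 1))) := by gcongr
        _ = (2 - 1 / (k + 1)) * ((1 + l (k + 1)) / (1 - l (k + 1))) * ((1 + l 0) / (1 - l 0)) := by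
          ring
        _ ≤ _ := by gcongr
  cases k with
  | zero => rw [Finset.range_zero, Finset.prod_empty]; linarith
  | succ k =>
    refine (key k).trans ?_
    gcongr
    exact sub_le_self _ (by positivity)

lemma lp_of {V : ℤ → ℝ} {p : ℕ → ℕ} {U : ℕ → ℤ → ℝ} {l d : ℕ → ℝ} (i : ∀ k, Inv (p k) (U k) (l k))
    (h : ∀ k n, |V n - U k n| ≤ ∑' m, d (m + k)) (ε : ℝ) (hε : 0 < ε) :
    ∃ p : ℕ, 0 < p ∧ ∃ W : ℤ → ℝ, Function.Periodic W p ∧ ∀ n, |V n - W n| < ε := by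
  obtain ⟨k, hk⟩ := ((tendsto_sum_nat_add d).eventually_lt_const hε).exists
  exact ⟨p k, (i k).p0, U k, (i k).per, fun n => (h k n).trans_lt hk⟩

theorem main : ∃ (V : ℤ → ℝ) (H : L2 →L[ℂ] L2) (μ : ℤ → Measure ℝ),
    (∀ ε : ℝ, 0 < ε → ∃ p : ℕ, 0 < p ∧ ∃ W : ℤ → ℝ, Function.Periodic W p ∧
      ∀ n, |V n - W n| < ε) ∧
    (∀ (ψ : L2) (n : ℤ), H ψ n = ψ (n + 1) + ψ (n - 1) + (V n : ℂ) * ψ n) ∧
    (∀ j, IsFiniteMeasure (μ j) ∧ ∀ k : ℕ, Integrable (fun x : ℝ => x ^ k) (μ j) ∧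
      ((∫ x, x ^ k ∂μ j : ℝ) : ℂ) = ⟪dl j, (H ^ k) (dl j)⟫_ℂ) ∧
    μ 0 {0} ≠ 0 ∧ ¬ μ 1 ⟂ₘ volume := by
  let l : ℕ → ℝ := fun k => Nat.rec (1 - 1 / 10 ^ 6) (fun k _ => 1 / (8 * (k + 1) * (k + 2))) k
  have l0 : l 0 = 1 - 1 / 10 ^ 6 := rfl
  have lS : ∀ k : ℕ, l (k + 1) = 1 / (8 * (k + 1) * (k + 2)) := fun _ => rfl
  have lp : ∀ k, 0 < l k := fun k => by
    cases k with
    | zero => rw [l0]; norm_num
    | succ k => rw [lS]; positivity
  have l1 : ∀ k, l k < 1 := fun k => by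
    cases k with
    | zero => rw [l0]; norm_num
    | succ k =>
      rw [lS, div_lt_one (by positivity)]
      nlinarith [(Nat.cast_nonneg k : (0 : ℝ) ≤ k)]
  let a := -(l 0 + (l 0)⁻¹)
  obtain ⟨f, f0, hf⟩ := dc (S := ℕ × (ℤ → ℝ) × Set ℝ)
    (fun k s => Inv s.1 s.2.1 (l k) ∧ IsClosed s.2.2 ∧ s.2.2 ⊆ Icc (a - 1) (a + 1) ∧
      1 + 8 / ((8 * 2 ^ k : ℕ) : ℝ) ≤ volume.real s.2.2 ∧
      (∀ E ∈ s.2.2, Fl s.1 s.2.1 E (1 / (4 * (8 * 2 ^ k : ℕ)))) ∧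
      ((l k)⁻¹ - l k) / th s.2.1 0 s.1 ≤ 1 / (24 * (8 * 2 ^ k : ℕ) ^ 4 * s.1))
    (fun k s t => ∃ N ≥ 1, t.1 = (N + 1) * s.1 ∧ t.2.1 = fill s.2.1 t.1 (l (k + 1)) ∧
      t.2.2 ⊆ s.2.2 ∧ |t.2.1 0 - s.2.1 0| ≤ 1 / (8 * 2 ^ k : ℕ) ∧
      (l (k + 1) + (l (k + 1))⁻¹) / th t.2.1 0 t.1 ≤ 1 / (8 * 2 ^ k : ℕ))
    (1, fun _ => a, Icc (a - 1) (a + 1))
    ⟨inv0 (lp 0) (l1 0), isClosed_Icc, Subset.rfl, by
      rw [Real.volume_real_Icc_of_le (by linarith)]; norm_num, fun E hE => by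
      have := fl0 a E (abs_le.2 ⟨by linarith [hE.1], by linarith [hE.2]⟩)
      norm_num at this ⊢
      exact this, by rw [th_one, l0]; norm_num⟩ (by
    rintro k ⟨p, U, G⟩ ⟨i, g1, g2, g3, g4, g5⟩
    obtain ⟨N, N1, G', s1, s2, s3, s4, s5, s6⟩ := step
      (Nat.le_mul_of_pos_right 8 (Nat.two_pow_pos k)) i (lp (k + 1)) (l1 (k + 1)) g1 g2 g3 g4 g5
    have i' := i.next N (lp (k + 1)) (l1 (k + 1))
    have e : 8 * 2 ^ (k + 1) = 2 * (8 * 2 ^ k) := by ring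
    refine ⟨((N + 1) * p, fill U ((N + 1) * p) (l (k + 1)), G'), ⟨i', s2, s1.trans g2, e ▸ s3,
      e ▸ s4, ?_⟩, N, N1, rfl, rfl, s1, s6, s5.trans ?_⟩
    · rw [e]
      refine le_trans (div_le_div_of_nonneg_right ?_ (zero_le_one.trans i'.one)) s5
      linarith [lp (k + 1)]
    · refine one_div_le_one_div_of_le (by positivity) ?_
      have p1 : (1 : ℝ) ≤ ((N + 1) * p : ℕ) := by exact_mod_cast i'.p0
      obtain ⟨m, hm⟩ : ∃ m, m = 8 * 2 ^ k := ⟨_, rfl⟩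
      have m1 : (1 : ℝ) ≤ m := by rw [hm]; exact_mod_cast Nat.mul_pos (by norm_num) (Nat.two_pow_pos k)
      rw [← hm]
      generalize (((N + 1) * p : ℕ) : ℝ) = x at *
      push_cast
      have : (m : ℝ) ≤ (2 * m) ^ 4 := le_trans (by linarith) (le_self_pow₀ (by linarith) (by norm_num))
      nlinarith)
  choose N N1 h1 h2 h3 h4 h5 using fun k => (hf k).2
  have hi : Hier l N (fun k => (f k).1) fun k => (f k).2.1 :=
    ⟨lp, l1, N1, by simp only [f0], h1, by simp only [f0]; rfl, h2⟩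
  have sd : Summable fun k : ℕ => (1 : ℝ) / (8 * 2 ^ k : ℕ) := by
    refine (summable_geometric_two.mul_left (1 / 8)).congr fun k => ?_
    push_cast
    rw [one_div_pow, one_div_mul_one_div]
  obtain ⟨V, v1, v2, v3, u, u0, us, ue⟩ := hi.limit _ sd h4 (by
    rw [← tendsto_add_atTop_iff_nat 1]
    exact squeeze_zero (fun k => div_nonneg (by have := lp (k + 1); positivity)
      (zero_le_one.trans (hi.inv _).one)) h5 sd.tendsto_atTop_zero) _ (prodb l (lp 0) (l1 0) lS)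
  have fin : ∀ k, volume (f k).2.2 ≠ ⊤ := fun k =>
    ne_top_of_le_ne_top measure_Icc_lt_top.ne (measure_mono (hf k).1.2.2.1)
  have big : volume (⋂ k, (f k).2.2) ≠ 0 := by
    have := ge_of_tendsto' (tendsto_measure_iInter_atTop
      (fun k => (hf k).1.2.1.measurableSet.nullMeasurableSet) (antitone_nat_of_succ_le h3)
      ⟨0, fin 0⟩) (b := ENNReal.ofReal 1) fun k => (ENNReal.ofReal_le_iff_le_toReal (fin k)).2
        ((le_add_of_nonneg_right (by positivity)).trans (hf k).1.2.2.2.1)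
    intro h
    simp [h] at this
  obtain ⟨H, μ, z⟩ := package V (|a| + ∑' m : ℕ, (1 : ℝ) / (8 * 2 ^ (m + 0) : ℕ)) (fun n => by
    have := v1 0 n
    rw [f0] at this
    linarith [abs_sub_abs_le_abs_sub (V n) a]) u u0 us ue _
    (MeasurableSet.iInter fun k => (hf k).1.2.1.measurableSet) big 4 fun c hc => by
      obtain ⟨φ, a1, a2, a3⟩ := extend V v3 c (-1) (by simp) (th V c) (th_add V c)
        (by simp [th_zero]) (by simp [th_zero])
      refine ⟨φ, a1 1, fun n => ?_, a3⟩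
      rw [a2, th_congr (v2 n.natAbs) c _ ((hi.lt (n.natAbs + 1)).le.trans' (Nat.le_succ _))]
      exact ((hf _).1.2.2.2.2.1 c (mem_iInter.1 hc _)).bd (hi.inv _) (by positivity) _
  exact ⟨V, H, μ, lp_of (d := fun k => (1 : ℝ) / (8 * 2 ^ k : ℕ)) hi.inv v1, z⟩

end Pool.Agent.H.MP_3ab43d_mp
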